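import Mathlib
import Pool.Agent.Q210.BR.Defs

/-!
# Finitely many fixed points are extinction vectors
-/

open Filter Topology Set MeasureTheory
open Pool.Agent.H632R3.Branch Pool.Agent.Q210.BR

namespace Pool.Agent.Results.MP_f48e0c_pr.FixedPoints

noncomputable section

variable {X : Type}

/-- The extinction vector `q(A)`: the probability, starting from one individual of type `x`, that
the number of individuals with type in `A` tends to zero. -/
def q (μ : X → PMF (X →₀ ℕ)) (A : Set X) : X → ℝ := fun x =>
  (law μ).real {ω | Tendsto (fun n => count A (pop x ω n)) atTop (𝓝 0)}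

/-- The set of extinction vectors. -/
def Ext (μ : X → PMF (X →₀ ℕ)) : Set (X → ℝ) := {s | ∃ A : Set X, s = q μ A}

/-- The set of fixed points of the generating function in the unit cube. -/
def S (μ : X → PMF (X →₀ ℕ)) : Set (X → ℝ) := {s | (∀ x, 0 ≤ s x ∧ s x ≤ 1) ∧ s = gen μ s}

/-- For every multitype Galton-Watson process with countable typeset: if the set `S` of fixed
points is finite, then `S = Ext`; and if `S ≠ Ext` then `S` has the cardinality of the
continuum. -/
theorem result (X : Type) [Countable X] (μ : X → PMF (X →₀ ℕ)) :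
    ((S μ).Finite → S μ = Ext μ) ∧
      (S μ ≠ Ext μ → Cardinal.mk (S μ) = Cardinal.continuum) := by
  have hS : S μ = FixG μ := by
    ext s
    exact ⟨fun h => ⟨h.1, h.2.symm⟩, fun h => ⟨h.1, h.2.symm⟩⟩
  have hq : ∀ A : Set X, q μ A = beta μ A := by
    intro A
    funext x
    show (law μ).real _ = (law μ).real _
    congr 1
    rw [← ev_zero_eq x A]
    ext ω
    simp only [mem_ofPred_eq]
    rw [nhds_discrete, tendsto_pure]
  have hE : Ext μ ⊆ S μ := by
    rintro s ⟨A, rfl⟩
    rw [hS, hq]
    exact beta_mem μ A
  have h2 : S μ ≠ Ext μ → Cardinal.mk (S μ) = Cardinal.continuum := by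
    intro hne
    by_contra hc
    apply hne
    refine Subset.antisymm (fun s hs => ?_) hE
    rw [hS] at hs hc
    exact ⟨{y | s y < 1}, by rw [hq]; exact eq_beta μ hc hs⟩
  refine ⟨fun hfin => ?_, h2⟩
  by_contra hne
  have h3 := h2 hne
  have h4 : Cardinal.mk (S μ) < Cardinal.aleph0 := Cardinal.lt_aleph0_iff_set_finite.mpr hfin
  rw [h3] at h4
  exact absurd h4 (not_lt.mpr Cardinal.aleph0_le_continuum)

end

end Pool.Agent.Results.MP_f48e0c_pr.FixedPoints
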